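import Pool.Agent.H48.HMS.Stm

/-!
# The Ackermann functions in unary are computed by programs in computable time
-/

set_option autoImplicit false

namespace Pool.HMS

open TMLib

/-- Successor of the unary number on top. -/
def succP : Prog := .seq (.push .m false) (.push .m true)

lemma runs_succP (k : ℕ) (r : List Bool) :
    Runs succP (ms ((enc k).code ++ r)) (ms ((enc (k + 1)).code ++ r)) 2 :=
  (Runs.push _ _ _).seq (Runs.push _ _ _)

/-- Push the unary number `1`. -/
def oneP : Prog := .seq (.push .m false) (.seq (.push .m false) (.push .m true))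

lemma runs_oneP (r : List Bool) :
    Runs oneP (ms r) (ms ((enc (1 : ℕ)).code ++ r)) 3 :=
  (Runs.push _ _ _).seq ((Runs.push _ _ _).seq (Runs.push _ _ _))

lemma size_enc_nat (n : ℕ) : (enc n).size = 2 * n + 1 := sz_nat n

lemma runs_iterLoop_nat {f : ℕ → ℕ} {p : Prog} {G : ℕ → ℕ} (hG : Monotone G)
    (hp : ∀ k r, Runs p (ms ((enc k).code ++ r)) (ms ((enc (f k)).code ++ r)) (G k))
    (Y S : ℕ) (y : ℕ) : ∀ (x : ℕ) (r : List Bool), y ≤ Y → (∀ i ≤ y, f^[i] x ≤ S) →
      Runs (PTime.iterLoop p) (ms ((enc y).code ++ ((enc x).code ++ r)))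
        (ms (false :: ((enc (f^[y] x)).code ++ r)))
        (1 + y * (100 + 100 * Y + 100 * S + G S)) := by
  induction y with
  | zero =>
    intro x r hY hS
    exact (Runs.loopF (by rfl)).mono (by simp)
  | succ y ih =>
    intro x r hY hS
    have h1 : Runs (.pop .m) (ms ((enc (y + 1)).code ++ ((enc x).code ++ r)))
        (ms (D.nil.code ++ ((enc y).code ++ ((enc x).code ++ r)))) 1 := by
      have := Runs.pop .m (ms ((enc (y + 1)).code ++ ((enc x).code ++ r)))
      simpa [ms, D.code] using this
    have h2 := h1.seq ((runs_drop D.nil ((enc y).code ++ ((enc x).code ++ r))).seq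
      ((runs_swap (enc y) (enc x) r).seq
      ((hp x ((enc y).code ++ r)).seq (runs_swap (enc (f x)) (enc y) r))))
    have h3 := ih (f x) r (by omega) (fun i hi => by
      have := hS (i + 1) (by omega)
      simpa using this)
    have h4 := Runs.loopT (k := .m) (f := isT) (by rfl) h2 h3
    have hx : x ≤ S := hS 0 (by omega)
    have hfx : f x ≤ S := by
      have := hS 1 (by omega)
      simpa using this
    have hT := hG hx
    rw [Function.iterate_succ_apply]
    refine h4.mono ?_
    have e1 := size_enc_nat x
    have e2 := size_enc_nat y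
    have e3 := size_enc_nat (f x)
    rw [e1, e2, e3, D.size_nil, Nat.add_mul]
    omega

lemma ack_iterate (m : ℕ) (i : ℕ) : (ack m)^[i + 1] 1 = ack (m + 1) i := by
  induction i with
  | zero => simp [ack_succ_zero]
  | succ i ih => rw [Function.iterate_succ_apply', ih, ack_succ_succ]

/-- `S_ACK`. -/
theorem ack_thm : S_ACK := by
  intro m
  induction m with
  | zero =>
    refine ⟨succP, fun _ => 2, Computable.const 2, fun _ _ _ => le_rfl, fun k r => ?_⟩
    rw [ack_zero]
    exact runs_succP k r
  | succ m ih =>
    obtain ⟨p, G, hGc, hGm, hp⟩ := ih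
    refine ⟨.seq oneP (.seq swap (.seq succP (.seq (PTime.iterLoop p) (.pop .m)))),
      fun k => 100 + 100 * k + (k + 1) * (100 + 100 * (k + 1) + 100 * ack (m + 1) k
        + G (ack (m + 1) k)), ?_, ?_, fun k r => ?_⟩
    · have ha : Computable (fun k : ℕ => ack (m + 1) k) :=
        computable₂_ack.comp (Computable.const (m + 1)) Computable.id
      have hadd : ∀ {f g : ℕ → ℕ}, Computable f → Computable g →
          Computable (fun k => f k + g k) := fun hf hg =>
        (Primrec.nat_add.to_comp).comp hf hg
      have hmul : ∀ {f g : ℕ → ℕ}, Computable f → Computable g →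
          Computable (fun k => f k * g k) := fun hf hg =>
        (Primrec.nat_mul.to_comp).comp hf hg
      have hid : Computable (fun k : ℕ => k) := Computable.id
      have hc : ∀ c : ℕ, Computable (fun _ : ℕ => c) := fun c => Computable.const c
      exact hadd (hadd (hc 100) (hmul (hc 100) hid)) (hmul (hadd hid (hc 1))
        (hadd (hadd (hadd (hc 100) (hmul (hc 100) (hadd hid (hc 1)))) (hmul (hc 100) ha))
          (hGc.comp ha)))
    · intro k l hkl
      have h1 : ack (m + 1) k ≤ ack (m + 1) l := ack_mono_right _ hkl
      have h2 := hGm h1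
      have h3 : 100 + 100 * (k + 1) + 100 * ack (m + 1) k + G (ack (m + 1) k) ≤
          100 + 100 * (l + 1) + 100 * ack (m + 1) l + G (ack (m + 1) l) := by omega
      have h4 := Nat.mul_le_mul (Nat.add_le_add_right hkl 1) h3
      simp only
      omega
    · have hb : ∀ i ≤ k + 1, (ack m)^[i] 1 ≤ ack (m + 1) k := by
        intro i hi
        rcases i with _ | i
        · exact ack_pos (m + 1) k
        · rw [ack_iterate]
          exact ack_mono_right _ (by omega)
      have h1 := runs_iterLoop_nat hGm hp (k + 1) (ack (m + 1) k) (k + 1) 1 r le_rfl hb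
      rw [ack_iterate] at h1
      have h2 := (runs_oneP ((enc k).code ++ r)).seq ((runs_swap (enc (1 : ℕ)) (enc k) r).seq
        ((runs_succP k ((enc (1 : ℕ)).code ++ r)).seq (h1.seq (Runs.pop .m _))))
      refine h2.mono ?_
      rw [size_enc_nat, size_enc_nat]
      simp only
      omega

end Pool.HMS
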