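import Pool.Agent.H91.HMS.RLib

/-!
# Farkas' lemma over the rational numbers, in the conventions of HMS
-/

set_option autoImplicit false

namespace Pool.HMS

open Finset

namespace Fk

theorem cone_zero (A : Set (ℕ → ℚ)) : (0 : ℕ → ℚ) ∈ Cone A :=
  ⟨0, fun _ => 0, fun _ => 0, fun i hi => absurd hi (Nat.not_lt_zero i), by simp⟩

theorem cone_add_gen {A : Set (ℕ → ℚ)} {u a : ℕ → ℚ} {c : ℚ} (hu : u ∈ Cone A) (ha : a ∈ A)
    (hc : 0 ≤ c) : u + c • a ∈ Cone A := by
  obtain ⟨k, d, b, hb, rfl⟩ := hu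
  refine ⟨k + 1, fun i => if i < k then d i else c, fun i => if i < k then b i else a, ?_, ?_⟩
  · intro i _
    by_cases h : i < k
    · simpa [h] using hb i h
    · simpa [h] using ⟨hc, ha⟩
  · rw [Finset.sum_range_succ]
    congr 1
    · exact Finset.sum_congr rfl fun i hi => by simp [Finset.mem_range.1 hi]
    · simp

theorem cone_comb {A : Set (ℕ → ℚ)} (k : ℕ) (c : ℕ → ℚ) (a : ℕ → ℕ → ℚ) {u : ℕ → ℚ}
    (hu : u ∈ Cone A) (h : ∀ i < k, 0 ≤ c i ∧ a i ∈ A) :
    u + ∑ i ∈ range k, c i • a i ∈ Cone A := by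
  induction k with
  | zero => simpa using hu
  | succ k ih =>
    rw [Finset.sum_range_succ, ← add_assoc]
    have h1 := h k (by omega)
    exact cone_add_gen (ih fun i hi => h i (by omega)) h1.2 h1.1

theorem cone_add {A : Set (ℕ → ℚ)} {u v : ℕ → ℚ} (hu : u ∈ Cone A) (hv : v ∈ Cone A) :
    u + v ∈ Cone A := by
  obtain ⟨k, c, a, h, rfl⟩ := hv
  exact cone_comb k c a hu h

theorem cone_smul {A : Set (ℕ → ℚ)} {u : ℕ → ℚ} (hu : u ∈ Cone A) {c : ℚ} (hc : 0 ≤ c) :
    c • u ∈ Cone A := by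
  obtain ⟨k, d, a, h, rfl⟩ := hu
  refine ⟨k, fun i => c * d i, a, fun i hi => ⟨mul_nonneg hc (h i hi).1, (h i hi).2⟩, ?_⟩
  rw [Finset.smul_sum]
  exact Finset.sum_congr rfl fun i _ => by rw [smul_smul]

theorem cone_gen {A : Set (ℕ → ℚ)} {a : ℕ → ℚ} (ha : a ∈ A) : a ∈ Cone A := by
  simpa using cone_add_gen (cone_zero A) ha zero_le_one

theorem cone_le {A B : Set (ℕ → ℚ)} (h : ∀ a ∈ A, a ∈ Cone B) {u : ℕ → ℚ} (hu : u ∈ Cone A) :
    u ∈ Cone B := by
  obtain ⟨k, c, a, ha, rfl⟩ := hu
  induction k with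
  | zero => simpa using cone_zero B
  | succ k ih =>
    rw [Finset.sum_range_succ]
    have h1 := ha k (by omega)
    exact cone_add (ih fun i hi => ha i (by omega)) (cone_smul (h _ h1.2) h1.1)

theorem cone_supp {A : Set (ℕ → ℚ)} {N : ℕ} (h : ∀ a ∈ A, Supp N a) {u : ℕ → ℚ}
    (hu : u ∈ Cone A) : Supp N u := by
  obtain ⟨k, c, a, ha, rfl⟩ := hu
  intro i hi
  rw [Finset.sum_apply]
  refine Finset.sum_eq_zero fun j hj => ?_
  rw [Pi.smul_apply, h _ (ha j (Finset.mem_range.1 hj)).2 i hi, smul_zero]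

theorem lin_zero (n : ℕ) (s : ℕ → ℚ) : lin n s 0 = 0 := by simp [lin]

theorem lin_add' (n : ℕ) (s x y : ℕ → ℚ) : lin n s (x + y) = lin n s x + lin n s y :=
  lin_add n s x y

theorem lin_smul' (n : ℕ) (s x : ℕ → ℚ) (c : ℚ) : lin n s (c • x) = c * lin n s x :=
  lin_smul n s x c

theorem lin_nonneg_cone {A : Set (ℕ → ℚ)} {N : ℕ} {w : ℕ → ℚ} (h : ∀ a ∈ A, 0 ≤ lin N w a)
    {u : ℕ → ℚ} (hu : u ∈ Cone A) : 0 ≤ lin N w u := by
  obtain ⟨k, c, a, ha, rfl⟩ := hu
  have e : (∑ i ∈ range k, c i • a i) = fun j => ∑ i ∈ range k, (c i • a i) j := by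
    funext j; rw [Finset.sum_apply]
  rw [e, lin_sum]
  refine Finset.sum_nonneg fun i hi => ?_
  have h1 := ha i (Finset.mem_range.1 hi)
  change 0 ≤ lin N w (c i • a i)
  rw [lin_smul']
  exact mul_nonneg h1.1 (h _ h1.2)

/-- Farkas' lemma for a list of generators. -/
theorem farkas (N : ℕ) : ∀ (k : ℕ) (L : List (ℕ → ℚ)), L.length = k → (∀ a ∈ L, Supp N a) →
    ∀ p, Supp N p → p ∈ Cone {a | a ∈ L} ∨
      ∃ w : ℕ → ℚ, (∀ a ∈ L, 0 ≤ lin N w a) ∧ lin N w p < 0 := by
  intro k
  induction k with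
  | zero =>
    intro L hL _ p hp
    have hL' : L = [] := List.eq_nil_of_length_eq_zero hL
    subst hL'
    by_cases h0 : p = 0
    · left; rw [h0]; exact cone_zero _
    · right
      refine ⟨fun i => (-1) * p i, by simp, ?_⟩
      rw [lin_smul_left]
      have h1 : 0 < lin N p p := by
        obtain ⟨i, hi⟩ := Function.ne_iff.1 h0
        have hiN : i < N := by
          by_contra hc
          exact hi (hp i (not_lt.1 hc))
        refine Finset.sum_pos' (fun j _ => mul_self_nonneg _) ⟨i, Finset.mem_range.2 hiN, ?_⟩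
        exact mul_self_pos.2 hi
      linarith
  | succ k ih =>
    intro L hL hS p hp
    obtain ⟨b, L, rfl⟩ : ∃ b L', L = b :: L' := by
      cases L with
      | nil => simp at hL
      | cons b L => exact ⟨b, L, rfl⟩
    have hL' : L.length = k := by simpa using hL
    have hSb : Supp N b := hS b (by simp)
    have hSL : ∀ a ∈ L, Supp N a := fun a ha => hS a (by simp [ha])
    have hsub : ∀ a ∈ ({a | a ∈ L} : Set (ℕ → ℚ)), a ∈ Cone {a | a ∈ b :: L} := fun a ha =>
      cone_gen (by simpa using Or.inr ha)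
    have hb : b ∈ Cone {a | a ∈ b :: L} := cone_gen (by simp)
    rcases ih L hL' hSL p hp with h | ⟨w, hw, hwp⟩
    · exact Or.inl (cone_le hsub h)
    by_cases hwb : 0 ≤ lin N w b
    · right
      refine ⟨w, fun a ha => ?_, hwp⟩
      rcases List.mem_cons.1 ha with rfl | ha
      · exact hwb
      · exact hw a ha
    · have hwb' : 0 < -lin N w b := by linarith [not_le.1 hwb]
      have hS' : ∀ x, Supp N x → Supp N (lin N w x • b + (-lin N w b) • x) := by
        intro x hx i hi
        simp [hx i hi, hSb i hi]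
      have hlin : ∀ (w' x : ℕ → ℚ), lin N w' (lin N w x • b + (-lin N w b) • x) =
          lin N w' b * lin N w x - lin N w b * lin N w' x := by
        intro w' x
        rw [lin_add', lin_smul', lin_smul']
        ring
      rcases ih (L.map fun a => lin N w a • b + (-lin N w b) • a) (by simpa using hL')
        (by
          intro a ha
          obtain ⟨a', ha', rfl⟩ := List.mem_map.1 ha
          exact hS' a' (hSL a' ha'))
        (lin N w p • b + (-lin N w b) • p) (hS' p hp) with h | ⟨w', hw', hwp'⟩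
      · left
        have h1 : lin N w p • b + (-lin N w b) • p ∈ Cone {a | a ∈ b :: L} := by
          refine cone_le ?_ h
          intro a ha
          obtain ⟨a', ha', rfl⟩ := List.mem_map.1 ha
          exact cone_add (cone_smul hb (hw a' ha'))
            (cone_smul (hsub a' ha') hwb'.le)
        have h2 := cone_smul (cone_add h1 (cone_smul hb (c := -lin N w p) (by linarith)))
          (c := (-lin N w b)⁻¹) (inv_pos.2 hwb').le
        have h3 : (-lin N w b)⁻¹ • (lin N w p • b + (-lin N w b) • p + (-lin N w p) • b) = p := by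
          funext i
          simp only [Pi.smul_apply, Pi.add_apply, smul_eq_mul]
          rw [show lin N w p * b i + -lin N w b * p i + -lin N w p * b i = -lin N w b * p i by ring,
            inv_mul_cancel_left₀ hwb'.ne']
        rwa [h3] at h2
      · right
        have e : ∀ x, lin N (fun i => lin N w' b * w i + (-lin N w b) * w' i) x =
            lin N w' b * lin N w x - lin N w b * lin N w' x := by
          intro x
          unfold lin
          rw [Finset.mul_sum (range N) (fun i => w i * x i),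
            Finset.mul_sum (range N) (fun i => w' i * x i), ← Finset.sum_sub_distrib]
          exact Finset.sum_congr rfl fun i _ => by ring
        refine ⟨fun i => lin N w' b * w i + (-lin N w b) * w' i, fun a ha => ?_, ?_⟩
        · rcases List.mem_cons.1 ha with rfl | ha
          · rw [e]; exact le_of_eq (by ring)
          · rw [e, ← hlin]
            exact hw' _ (List.mem_map.2 ⟨a, ha, rfl⟩)
        · rw [e, ← hlin]
          exact hwp'

/-- Farkas' lemma for a finite set of generators. -/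
theorem farkas_set {N : ℕ} {A : Set (ℕ → ℚ)} (hA : A.Finite) (hS : ∀ a ∈ A, Supp N a)
    {p : ℕ → ℚ} (hp : Supp N p) (h : p ∉ Cone A) :
    ∃ w : ℕ → ℚ, (∀ a ∈ A, 0 ≤ lin N w a) ∧ lin N w p < 0 := by
  have hmem : ∀ a, a ∈ hA.toFinset.toList ↔ a ∈ A := by simp
  rcases farkas N _ hA.toFinset.toList rfl (fun a ha => hS a ((hmem a).1 ha)) p hp with h1 | h1
  · exfalso
    apply h
    refine cone_le ?_ h1
    intro a ha
    exact cone_gen ((hmem a).1 ha)
  · obtain ⟨w, hw, hwp⟩ := h1
    exact ⟨w, fun a ha => hw a ((hmem a).2 ha), hwp⟩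

/-- A bounded set of lattice points is finite. -/
theorem lat_finite (n : ℕ) (B : ℚ) : {x : ℕ → ℚ | Lat n x ∧ ∀ i, |x i| ≤ B}.Finite := by
  let S : Finset (Fin n → ℤ) := Fintype.piFinset fun _ => Finset.Icc (-⌈B⌉) ⌈B⌉
  refine ((S : Set (Fin n → ℤ)).toFinite.image
    (fun f i => if h : i < n then ((f ⟨i, h⟩ : ℤ) : ℚ) else 0)).subset ?_
  rintro x ⟨⟨hS, hI⟩, hB⟩
  choose z hz using hI
  refine ⟨fun i => z i, ?_, ?_⟩
  · simp only [S, Finset.mem_coe, Fintype.mem_piFinset, Finset.mem_Icc]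
    intro i
    have h1 := hB i
    rw [hz i, abs_le] at h1
    have h2 : B ≤ (⌈B⌉ : ℚ) := Int.le_ceil B
    constructor
    · have : ((-⌈B⌉ : ℤ) : ℚ) ≤ (z i : ℚ) := by push_cast; linarith
      exact_mod_cast this
    · have : ((z i : ℤ) : ℚ) ≤ (⌈B⌉ : ℤ) := by linarith
      exact_mod_cast this
  · funext i
    by_cases h : i < n
    · simp only [h, dif_pos]; exact (hz i).symm
    · simp only [h, dif_neg, not_false_eq_true]; exact (hS i (not_lt.1 h)).symm

theorem hom_supp (n : ℕ) (x : ℕ → ℚ) : Supp (n + 1) (hom n x) := by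
  intro i hi
  unfold hom
  rw [if_neg (by omega), if_neg (by omega)]

theorem HA_supp (n : ℕ) (rows : Mat) : ∀ a ∈ HA n rows, Supp (n + 1) a := by
  rintro a ⟨x, _, rfl⟩
  exact hom_supp n x

theorem HA_finite (n : ℕ) (rows : Mat) (B : ℚ) (h : ∀ x ∈ Poly n rows, Box n B x) :
    (HA n rows).Finite := by
  refine Set.Finite.image _ ((lat_finite n B).subset ?_)
  rintro x ⟨hL, hP⟩
  exact ⟨hL, (h x hP).2⟩

end Fk

end Pool.HMS
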