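import Pool.Agent.H48.HMS.Stm

/-!
# Sums, products and powers of rationals in polynomial time
-/

set_option autoImplicit false

namespace Pool.HMS

open TMLib Finset Polynomial

lemma qs_sum_le (l : List ℚ) : (l.map fun q => qb q + 1).sum ≤ sz l := by
  rw [sz_list]
  induction l with
  | nil => simp
  | cons a l ih =>
    have := qb_le_sz a
    simp only [List.map_cons, List.sum_cons]
    omega

lemma qs_prod_le (l : List ℚ) : (l.map qb).sum ≤ sz l := by
  rw [sz_list]
  induction l with
  | nil => simp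
  | cons a l ih =>
    have := qb_le_sz a
    simp only [List.map_cons, List.sum_cons]
    omega

lemma qs_filter_length (z : ℤ) (n : ℕ) :
    ((List.range n).filter fun k : ℕ => !decide ((z : ℚ) ≤ ((k : ℤ) : ℚ))).length =
      min z.toNat n := by
  induction n with
  | zero => simp
  | succ n ih =>
    rw [List.range_succ, List.filter_append, List.length_append, ih]
    by_cases h : (z : ℚ) ≤ ((n : ℤ) : ℚ)
    · have h2 : z ≤ (n : ℤ) := by exact_mod_cast h
      have h3 : z.toNat ≤ n := by omega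
      simp only [h, decide_true, Bool.not_true, List.filter_cons, Bool.false_eq_true,
        if_false, List.filter_nil, List.length_nil]
      omega
    · have h2 : ¬ z ≤ (n : ℤ) := fun h' => h (by exact_mod_cast h')
      have h3 : n + 1 ≤ z.toNat := by omega
      simp only [h, decide_false, Bool.not_false, List.filter_cons, if_true, List.filter_nil,
        List.length_cons, List.length_nil]
      omega

/-- `S_QSUM`. -/
theorem qsum_thm (h1 : S_QOP) (h2 : S_QSZ) : S_QSUM := by
  refine ⟨?_, ?_, ?_, ?_, ?_, ?_⟩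
  · -- sums
    have hf : PTime (fun p : List ℚ × ℚ × ℚ => p.2.1 + p.2.2) :=
      h1.add.comp (g := fun p : ℚ × ℚ => p.1 + p.2) (f := fun p : List ℚ × ℚ × ℚ => p.2)
        (by fun_prop)
    have h := PTime.foldl (f := fun (_ : List ℚ) (s a : ℚ) => s + a) (init := fun _ => (0 : ℚ))
      (l := fun l : List ℚ => l) hf (by fun_prop) (by fun_prop) (h := fun l => 15 + 8 * sz l)
      ((PB.const 15).add ((PB.const 8).mul PB.sz_self)) (by
        intro l l' hl
        rw [← List.sum_eq_foldl]
        have e1 := sz_rat_le l'.sum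
        have e2 := h2.sum l'
        have e3 := qs_sum_le l'
        have e4 := sz_le_of_prefix hl
        omega)
    exact h.congr fun l => List.sum_eq_foldl
  · -- products
    have hf : PTime (fun p : List ℚ × ℚ × ℚ => p.2.1 * p.2.2) :=
      h1.mul.comp (g := fun p : ℚ × ℚ => p.1 * p.2) (f := fun p : List ℚ × ℚ × ℚ => p.2)
        (by fun_prop)
    have h := PTime.foldl (f := fun (_ : List ℚ) (s a : ℚ) => s * a) (init := fun _ => (1 : ℚ))
      (l := fun l : List ℚ => l) hf (by fun_prop) (by fun_prop) (h := fun l => 15 + 8 * sz l)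
      ((PB.const 15).add ((PB.const 8).mul PB.sz_self)) (by
        intro l l' hl
        rw [← List.prod_eq_foldl]
        have e1 := sz_rat_le l'.prod
        have e2 := h2.prod l'
        have e3 := qs_prod_le l'
        have e4 := sz_le_of_prefix hl
        omega)
    exact h.congr fun l => List.prod_eq_foldl
  · -- powers
    have hf : PTime (fun p : (ℚ × ℕ) × ℕ × ℚ => p.2.2 * p.1.1) :=
      h1.mul.comp (g := fun p : ℚ × ℚ => p.1 * p.2)
        (f := fun p : (ℚ × ℕ) × ℕ × ℚ => (p.2.2, p.1.1)) (by fun_prop)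
    have e : ∀ (p : ℚ × ℕ) (i : ℕ),
        Nat.rec (motive := fun _ => ℚ) (1 : ℚ) (fun _ s => s * p.1) i = p.1 ^ i := by
      intro p i
      induction i with
      | zero => simp
      | succ i ih => rw [pow_succ, ← ih]
    have h := PTime.natRec (f := fun _ : ℚ × ℕ => (1 : ℚ)) (g := fun p _ s => s * p.1)
      (n := fun p : ℚ × ℕ => p.2) (by fun_prop) hf (by fun_prop)
      (h := fun p => 15 + 8 * (sz p * sz p))
      ((PB.const 15).add ((PB.const 8).mul (PB.sz_self.mul PB.sz_self))) (by
        intro p i hi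
        rw [e]
        have e1 := sz_rat_le (p.1 ^ i)
        have e2 := h2.pow p.1 i
        have e3 := qb_le_sz p.1
        have e4 : sz p.1 ≤ sz p := by rw [sz_pair]; omega
        have e5 : p.2 ≤ sz p := by rw [sz_pair, sz_nat]; omega
        have e6 : i * qb p.1 ≤ sz p * sz p := Nat.mul_le_mul (hi.trans e5) (by omega)
        omega)
    exact h.congr fun p => (e p p.2).symm
  · -- integers of an interval
    have hc : PTime (fun p : ℚ => ((⌈p⌉ : ℤ) : ℚ)) := by
      refine (h1.neg.comp (h1.cast.comp (h1.floor.comp h1.neg))).congr fun p => ?_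
      rw [Int.floor_neg]
      push_cast
      ring
    have hz : PTime (fun p : (ℚ × ℚ × ℕ) × ℕ => ((⌈p.1.1⌉ : ℤ) : ℚ) + ((p.2 : ℤ) : ℚ)) :=
      h1.add.comp (g := fun p : ℚ × ℚ => p.1 + p.2)
        (f := fun p : (ℚ × ℚ × ℕ) × ℕ => (((⌈p.1.1⌉ : ℤ) : ℚ), ((p.2 : ℤ) : ℚ)))
        (PTime.pair (hc.comp (by fun_prop)) (h1.cast.comp (by fun_prop)))
    have hl : PTime (fun p : (ℚ × ℚ × ℕ) × ℚ => decide (p.2 ≤ p.1.2.1)) :=
      h1.le.comp (g := fun p : ℚ × ℚ => decide (p.1 ≤ p.2))
        (f := fun p : (ℚ × ℚ × ℕ) × ℚ => (p.2, p.1.2.1)) (by fun_prop)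
    refine (PTime.filter (l := fun p : ℚ × ℚ × ℕ => (List.range p.2.2).map
      fun i : ℕ => ((⌈p.1⌉ : ℤ) : ℚ) + ((i : ℤ) : ℚ)) (g := fun p z => decide (z ≤ p.2.1))
      (PTime.map (g := fun (p : ℚ × ℚ × ℕ) (i : ℕ) => ((⌈p.1⌉ : ℤ) : ℚ) + ((i : ℤ) : ℚ))
        (by fun_prop) hz) hl).congr fun p => ?_
    congr 1
    simp [List.map_eq_flatMap, List.flatMap_assoc]
  · -- unary
    have hl : PTime (fun p : (ℤ × ℕ) × ℕ => decide ((p.1.1 : ℚ) ≤ ((p.2 : ℤ) : ℚ))) :=
      h1.le.comp (g := fun p : ℚ × ℚ => decide (p.1 ≤ p.2))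
        (f := fun p : (ℤ × ℕ) × ℕ => ((p.1.1 : ℚ), ((p.2 : ℤ) : ℚ)))
        (PTime.pair (h1.cast.comp (by fun_prop)) (h1.cast.comp (by fun_prop)))
    exact (PTime.length (PTime.filter (l := fun p : ℤ × ℕ => List.range p.2)
      (g := fun (p : ℤ × ℕ) (k : ℕ) => !decide ((p.1 : ℚ) ≤ ((k : ℤ) : ℚ))) (by fun_prop)
      (PTime.not hl))).congr fun p => (qs_filter_length p.1 p.2).symm
  · -- number of bits
    have h : PTime (fun q : ℚ => max q.num.natAbs.bits.length ((q.den : ℤ)).natAbs.bits.length) := by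
      fun_prop
    refine h.congr fun q => ?_
    rw [Nat.size_eq_bits_len, Nat.size_eq_bits_len]
    rfl

end Pool.HMS
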