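import Pool.Agent.H76.HMS.SvStmts
import Pool.Agent.H91.HMS.Lem2
import Pool.Agent.H24.HMS.Farkas

/-!
# HMS, Lemma 2 (few exceptions) in the conventions of `Base`
-/

set_option autoImplicit false

namespace Pool.HMS

open Finset Matrix

/-- `S_VFE`. -/
theorem vfe_thm : S_VFE := by
  intro e rows B ys R k a hB hys hR ha hsum
  have hfin := Fk.HA_finite e rows B hB
  have hS := Fk.HA_supp e rows
  let ph : (ℕ → ℚ) → (Fin (e + 1) → ℝ) := fun x i => ((x i : ℚ) : ℝ)
  let C : Set (Fin (e + 1) → ℝ) :=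
    {c | ∀ w : ℕ → ℚ, (∀ a ∈ HA e rows, 0 ≤ lin (e + 1) w a) → 0 ≤ ph w ⬝ᵥ c}
  have hdot : ∀ w x : ℕ → ℚ, ph w ⬝ᵥ ph x = ((lin (e + 1) w x : ℚ) : ℝ) := by
    intro w x
    simp only [ph, dotProduct, lin]
    push_cast
    rw [Finset.sum_range (fun i => ((w i : ℚ) : ℝ) * ((x i : ℚ) : ℝ))]
  have hC : ∀ u ∈ Cone (HA e rows), ph u ∈ C := by
    intro u hu w hw
    rw [hdot]
    exact_mod_cast Fk.lin_nonneg_cone hw hu
  have hnC : ∀ u, Supp (e + 1) u → u ∉ Cone (HA e rows) → ph u ∉ C := by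
    intro u hu hn hc
    obtain ⟨w, hw, hwu⟩ := Fk.farkas_set hfin hS hu hn
    have h1 := hc w hw
    rw [hdot] at h1
    have h2 : (0 : ℚ) ≤ lin (e + 1) w u := by exact_mod_cast h1
    exact absurd h2 (not_le.2 hwu)
  rcases Nat.eq_zero_or_pos k with rfl | hk
  · have : (0 : ℚ) ≤ ((e : ℚ) + 1) ^ 2 * R := by positivity
    simpa using this
  have h := few_exceptions (N := e + 1) (r := k) C (by
      intro v hv
      simp only [C, Set.mem_ofPred_eq, not_forall] at hv
      obtain ⟨w, hw, hwv⟩ := hv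
      exact ⟨ph w, fun c hc => hc w hw, not_le.1 hwv⟩) (R : ℝ) (by exact_mod_cast hR)
    (ph ys) (hC ys hys) (fun i => ph (hom e (a i)))
    (fun i => hC _ (Fk.cone_gen ⟨a i, (ha i i.2).1, rfl⟩))
    (by
      intro i
      have h1 := hnC (fun c => ys c - (e + 1) * hom e (a i) c) (by
        intro c hc
        have h2 := Fk.cone_supp hS hys c hc
        have h3 := Fk.hom_supp e (a i) c hc
        simp only [h2, h3, mul_zero, sub_zero]) (ha i i.2).2
      have e1 : ph ys - (((e + 1 : ℕ) : ℝ)) • ph (hom e (a i)) =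
          ph (fun c => ys c - (e + 1) * hom e (a i) c) := by
        funext j
        simp only [ph, Pi.sub_apply, Pi.smul_apply, smul_eq_mul]
        push_cast
        ring
      rw [e1]
      exact h1)
    (by
      have h1 := hC _ hsum
      have e1 : (R : ℝ) • ph ys - ∑ i : Fin k, ph (hom e (a i)) =
          ph (R • ys - ∑ i ∈ range k, hom e (a i)) := by
        funext j
        simp only [ph, Pi.sub_apply, Pi.smul_apply, smul_eq_mul, Finset.sum_apply]
        push_cast
        rw [Finset.sum_range (fun i => ((hom e (a i) j : ℚ) : ℝ))]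
      rw [e1]
      exact h1) hk
  have h2 : (k : ℚ) < (((e + 1 : ℕ) : ℚ)) ^ 2 * R := by exact_mod_cast h
  push_cast at h2
  exact h2.le

end Pool.HMS
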