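import Pool.Agent.H76.HMS.SvStmts
import Pool.Agent.H91.HMS.RLib

/-!
# HMS, box 6: separation oracle for the relaxation of a state
-/

set_option autoImplicit false

namespace Pool.HMS

open Finset

namespace VKOx

theorem sumTo_eq (n : ℕ) (f : ℕ → ℚ) : sumTo n f = ∑ i ∈ range n, f i := by
  unfold sumTo
  induction n with
  | zero => simp
  | succ n ih => rw [List.range_succ, List.map_append, List.sum_append, ih,
      Finset.sum_range_succ]; simp

theorem affP_eq (s q : Vec) : affP s q = aff q.length (fn s) (fn q) := by
  unfold affP aff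
  rw [sumTo_eq]

theorem polyO_none {rows : Mat} {q : Vec} (h : polyO rows q = none) :
    ∀ r ∈ rows, 0 ≤ aff q.length (fn r) (fn q) := by
  intro r hr
  by_contra hc
  unfold polyO at h
  rw [List.head?_eq_none_iff, List.filter_eq_nil_iff] at h
  have := h r hr
  rw [affP_eq, decide_eq_true_eq] at this
  exact this (not_le.1 hc)

theorem polyO_some {rows : Mat} {q r : Vec} (h : polyO rows q = some r) :
    r ∈ rows ∧ aff q.length (fn r) (fn q) < 0 := by
  unfold polyO at h
  have h1 := List.mem_of_head? h
  rw [List.mem_filter, affP_eq, decide_eq_true_eq] at h1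
  exact h1

/-- Value of a list of coefficients. -/
def linL (l : Vec) (z : ℕ → ℚ) : ℚ := ∑ i ∈ range l.length, fn l i * z i

theorem linL_eq {n : ℕ} (l : Vec) (z : ℕ → ℚ) (h : l.length ≤ n) :
    ∑ i ∈ range n, fn l i * z i = linL l z := by
  unfold linL
  symm
  refine Finset.sum_subset (Finset.range_subset_range.2 h) fun i _ hi => ?_
  rw [fn_of_le (not_lt.1 fun h' => hi (Finset.mem_range.2 h')), zero_mul]

theorem aff_cons {n : ℕ} (c : ℚ) (l : Vec) (z : ℕ → ℚ) (h : l.length ≤ n) :
    aff n (fn (c :: l)) z = c + linL l z := by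
  rw [← linL_eq l z h]
  rfl

theorem linL_append (l l' : Vec) (z : ℕ → ℚ) :
    linL (l ++ l') z = linL l z + linL l' (fun i => z (l.length + i)) := by
  unfold linL
  rw [List.length_append, Finset.sum_range_add]
  congr 1
  · refine Finset.sum_congr rfl fun i hi => ?_
    unfold fn
    rw [List.getD_append _ _ _ _ (Finset.mem_range.1 hi)]
  · refine Finset.sum_congr rfl fun i _ => ?_
    unfold fn
    rw [List.getD_append_right _ _ _ _ (by omega)]
    simp

theorem linL_replicate (n : ℕ) (z : ℕ → ℚ) : linL (List.replicate n (0 : ℚ)) z = 0 := by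
  unfold linL
  refine Finset.sum_eq_zero fun i hi => ?_
  rw [List.length_replicate, Finset.mem_range] at hi
  have : (List.replicate n (0 : ℚ)).getD i 0 = 0 := by
    rw [List.getD_eq_getElem?_getD, List.getElem?_replicate]
    split_ifs
    rfl
  unfold fn
  rw [this, zero_mul]

theorem linL_tab (n : ℕ) (f z : ℕ → ℚ) : linL (tab n f) z = ∑ i ∈ range n, f i * z i := by
  unfold linL
  rw [length_tab]
  refine Finset.sum_congr rfl fun i hi => ?_
  rw [fn_tab, if_pos (Finset.mem_range.1 hi)]

theorem linL_neg (l : Vec) (z : ℕ → ℚ) : linL (l.map fun q => -q) z = - linL l z := by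
  unfold linL
  rw [List.length_map, ← Finset.sum_neg_distrib]
  refine Finset.sum_congr rfl fun i hi => ?_
  rw [Finset.mem_range] at hi
  unfold fn
  rw [List.getD_eq_getElem _ _ (by simpa using hi), List.getD_eq_getElem _ _ hi,
    List.getElem_map]
  ring

theorem linL_singleton (c : ℚ) (z : ℕ → ℚ) : linL [c] z = c * z 0 := by
  simp [linL, fn]

/-- Offsets inside a list of pieces. -/
def po (ps : List ENode) (l : ℕ) : ℕ := ((ps.take l).map fun p => p.1 + 1).sum

theorem offs_eq (d : ℕ) (S : SState) (l : ℕ) : offs d S l = S.1 * (d + 1) + po S.2 l := rfl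

theorem po_succ {ps : List ENode} {l : ℕ} (hl : l < ps.length) :
    po ps (l + 1) = po ps l + ((ps.getD l (0, [], 0)).1 + 1) := by
  unfold po
  rw [List.take_succ_eq_append_getElem hl, List.map_append, List.sum_append,
    List.getD_eq_getElem _ _ hl]
  simp

theorem po_mono (ps : List ENode) {l m : ℕ} (h : l ≤ m) : po ps l ≤ po ps m := by
  unfold po
  obtain ⟨k, rfl⟩ := Nat.exists_eq_add_of_le h
  rw [List.take_add, List.map_append, List.sum_append]
  omega

theorem offs_le (d : ℕ) (S : SState) {l : ℕ} (hl : l < S.2.length) :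
    offs d S l + ((nodeAt S l).1 + 1) ≤ dimS d S := by
  have h1 := po_succ hl
  have h2 := po_mono S.2 (show l + 1 ≤ S.2.length by omega)
  unfold dimS
  rw [offs_eq, offs_eq]
  unfold nodeAt
  omega

theorem sgl_le (d : ℕ) (S : SState) {j : ℕ} (hj : j < S.1) :
    j * (d + 1) + (d + 1) ≤ dimS d S := by
  unfold dimS
  rw [offs_eq]
  have : (j + 1) * (d + 1) ≤ S.1 * (d + 1) := Nat.mul_le_mul_right _ hj
  rw [Nat.add_mul] at this
  omega

theorem length_embCol (d : ℕ) (p : ENode) (c : ℕ) : (embCol d p c).length = p.1 + 1 := by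
  unfold embCol
  exact length_tab _ _

theorem linL_embCol (d : ℕ) (p : ENode) (c : ℕ) (hc : c < d + 1) (z : ℕ → ℚ) :
    linL (embCol d p c) z = embH d p.1 p.2.1 (blk z 0 (p.1 + 1)) c := by
  unfold embCol embH
  rw [linL_tab, Finset.sum_range_succ]
  have hb : ∀ i, i < p.1 + 1 → blk z 0 (p.1 + 1) i = z i := by
    intro i hi
    simp [blk, hi]
  by_cases h : c < d
  · simp only [h, if_true]
    rw [hb p.1 (by omega), add_comm]
    congr 1
    refine Finset.sum_congr rfl fun i hi => ?_
    have hi' := Finset.mem_range.1 hi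
    rw [hb i (by omega), if_neg (by omega)]
  · simp only [h, if_false, if_pos (show c = d by omega), if_true]
    rw [hb p.1 (by omega)]
    have : ∑ i ∈ range p.1, (if i = p.1 then (1 : ℚ) else 0) * z i = 0 := by
      refine Finset.sum_eq_zero fun i hi => ?_
      have hi' := Finset.mem_range.1 hi
      rw [if_neg (by omega), zero_mul]
    rw [this]
    ring

theorem linL_pieces (d c : ℕ) (hc : c < d + 1) : ∀ (ps : List ENode) (z : ℕ → ℚ),
    linL (ps.flatMap fun p => embCol d p c) z =
      ∑ l ∈ range ps.length, embH d (ps.getD l (0, [], 0)).1 (ps.getD l (0, [], 0)).2.1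
        (blk z (po ps l) ((ps.getD l (0, [], 0)).1 + 1)) c := by
  intro ps
  induction ps with
  | nil => intro z; simp [linL]
  | cons p ps ih =>
    intro z
    rw [List.flatMap_cons, linL_append, ih, length_embCol, linL_embCol d p c hc,
      List.length_cons, Finset.sum_range_succ']
    rw [add_comm]
    congr 1
    refine Finset.sum_congr rfl fun l _ => ?_
    simp only [List.getD_cons_succ]
    congr 1
    funext i
    unfold blk po
    simp only [List.take_succ_cons, List.map_cons, List.sum_cons]
    split_ifs
    · congr 1; ring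
    · rfl

theorem linL_singles (d c : ℕ) (hc : c < d + 1) (n : ℕ) (z : ℕ → ℚ) :
    linL ((List.range n).flatMap fun _ => tab (d + 1) fun i => if i = c then 1 else 0) z =
      ∑ j ∈ range n, sgl d z j c := by
  induction n with
  | zero => simp [linL]
  | succ n ih =>
    rw [List.range_succ, List.flatMap_append, linL_append, ih, Finset.sum_range_succ]
    congr 1
    have hlen : ((List.range n).flatMap fun _ =>
        tab (d + 1) fun i => if i = c then (1 : ℚ) else 0).length = n * (d + 1) := by
      rw [List.length_flatMap]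
      simp [length_tab]
    rw [hlen, List.flatMap_singleton, linL_tab]
    unfold sgl blk
    rw [if_pos hc, Finset.sum_eq_single c]
    · simp
    · intro i _ hi
      rw [if_neg hi, zero_mul]
    · intro h
      exact absurd (Finset.mem_range.2 hc) h

theorem length_flatMap_embCol (d c : ℕ) (ps : List ENode) :
    (ps.flatMap fun p => embCol d p c).length = po ps ps.length := by
  unfold po
  rw [List.length_flatMap, List.take_length]
  simp [length_embCol]

theorem length_singles (d c n : ℕ) : ((List.range n).flatMap fun _ =>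
    tab (d + 1) fun i => if i = c then (1 : ℚ) else 0).length = n * (d + 1) := by
  rw [List.length_flatMap]
  simp [length_tab]

theorem aff_eqRow (d : ℕ) (y : Vec) (S : SState) (c : ℕ) (hc : c < d + 1) (z : ℕ → ℚ) :
    aff (dimS d S) (fn (eqRow d y S c)) z = - fn y c + totS d S z c := by
  unfold eqRow
  rw [aff_cons _ _ _ (by
    rw [List.length_append, length_singles, length_flatMap_embCol]
    exact le_of_eq rfl)]
  rw [linL_append, length_singles, linL_singles d c hc, linL_pieces d c hc]
  unfold totS
  rw [Pi.add_apply, Finset.sum_apply, Finset.sum_apply]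
  congr 2
  refine Finset.sum_congr rfl fun l _ => ?_
  unfold pcl nodeAt
  congr 1
  funext i
  unfold blk
  rw [offs_eq]
  split_ifs
  · rw [Nat.add_assoc]
  · rfl

theorem aff_eqRow_neg (d : ℕ) (y : Vec) (S : SState) (c : ℕ) (hc : c < d + 1) (z : ℕ → ℚ) :
    aff (dimS d S) (fn ((eqRow d y S c).map fun q => -q)) z = fn y c - totS d S z c := by
  have h := aff_eqRow d y S c hc z
  unfold eqRow at h ⊢
  have hl : (((List.range S.1).flatMap fun _ => tab (d + 1) fun i => if i = c then (1 : ℚ) else 0) ++
      S.2.flatMap fun p => embCol d p c).length ≤ dimS d S := by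
    rw [List.length_append, length_singles, length_flatMap_embCol]
    exact le_of_eq rfl
  rw [aff_cons _ _ _ hl] at h
  rw [List.map_cons, aff_cons _ _ _ (by rw [List.length_map]; exact hl), linL_neg]
  linarith

theorem aff_sing (d n j : ℕ) (r : Vec) (z : ℕ → ℚ) (h : j * (d + 1) + (d + 1) ≤ n) :
    aff n (fn ((0 : ℚ) :: (List.replicate (j * (d + 1)) (0 : ℚ) ++
      tab (d + 1) fun i => if i = d then fn r 0 else fn r (i + 1)))) z =
      fn r 0 * sgl d z j d + ∑ i ∈ range d, fn r (i + 1) * sgl d z j i := by
  rw [aff_cons _ _ _ (by rw [List.length_append, List.length_replicate, length_tab]; exact h),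
    linL_append, linL_replicate, linL_tab, List.length_replicate, Finset.sum_range_succ]
  simp only [if_true]
  have hs : ∀ i, i < d + 1 → sgl d z j i = z (j * (d + 1) + i) := by
    intro i hi
    simp [sgl, blk, hi]
  rw [hs d (by omega)]
  have : ∑ i ∈ range d, (if i = d then fn r 0 else fn r (i + 1)) * z (j * (d + 1) + i) =
      ∑ i ∈ range d, fn r (i + 1) * sgl d z j i := by
    refine Finset.sum_congr rfl fun i hi => ?_
    have hi' := Finset.mem_range.1 hi
    rw [hs i (by omega), if_neg (by omega)]
  rw [this]
  ring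

theorem aff_last (d n j : ℕ) (c0 c : ℚ) (z : ℕ → ℚ) (h : j * (d + 1) + (d + 1) ≤ n) :
    aff n (fn (c0 :: (List.replicate (j * (d + 1) + d) (0 : ℚ) ++ [c]))) z =
      c0 + c * sgl d z j d := by
  rw [aff_cons _ _ _ (by
    rw [List.length_append, List.length_replicate, List.length_singleton]; omega),
    linL_append, linL_replicate, linL_singleton, List.length_replicate]
  simp [sgl, blk]

/-- Meaning of the explicit constraints. -/
theorem SRows_iff (d : ℕ) (rows : Mat) (y : Vec) (S : SState) (hy : y.length = d + 1)
    (z : ℕ → ℚ) :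
    (∀ r ∈ SRows d rows y S, 0 ≤ aff (dimS d S) (fn r) z) ↔
      (∀ j < S.1, SingR d rows (sgl d z j)) ∧ totS d S z = fn y := by
  have hbig : ∀ i, d + 1 ≤ i → totS d S z i = 0 := by
    intro i hi
    unfold totS
    rw [Pi.add_apply, Finset.sum_apply, Finset.sum_apply,
      Finset.sum_eq_zero fun j _ => by unfold sgl blk; rw [if_neg (by omega)],
      Finset.sum_eq_zero fun j _ => by
        unfold embH; rw [if_neg (by omega), if_neg (by omega)], add_zero]
  constructor
  · intro h
    constructor
    · intro j hj
      have hn := sgl_le d S hj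
      refine ⟨fun r hr => ?_, ?_, ?_⟩
      · rw [← aff_sing d _ j r z hn]
        refine h _ (List.mem_append_left _ (List.mem_flatMap.2 ⟨j, List.mem_range.2 hj, ?_⟩))
        exact List.mem_append_left _ (List.mem_map.2 ⟨r, hr, rfl⟩)
      · have h1 := h ((0 : ℚ) :: (List.replicate (j * (d + 1) + d) (0 : ℚ) ++ [1]))
          (List.mem_append_left _ (List.mem_flatMap.2 ⟨j, List.mem_range.2 hj,
            List.mem_append_right _ (by simp)⟩))
        rw [aff_last d _ j 0 1 z hn] at h1
        linarith
      · have h1 := h ((1 : ℚ) :: (List.replicate (j * (d + 1) + d) (0 : ℚ) ++ [-1]))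
          (List.mem_append_left _ (List.mem_flatMap.2 ⟨j, List.mem_range.2 hj,
            List.mem_append_right _ (by simp)⟩))
        rw [aff_last d _ j 1 (-1) z hn] at h1
        linarith
    · funext c
      by_cases hc : c < d + 1
      · have h1 := h (eqRow d y S c) (List.mem_append_right _ (List.mem_flatMap.2
          ⟨c, List.mem_range.2 hc, by simp⟩))
        have h2 := h ((eqRow d y S c).map fun q => -q) (List.mem_append_right _
          (List.mem_flatMap.2 ⟨c, List.mem_range.2 hc, by simp⟩))
        rw [aff_eqRow d y S c hc] at h1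
        rw [aff_eqRow_neg d y S c hc] at h2
        linarith
      · rw [hbig c (by omega), fn_of_le (by omega)]
  · rintro ⟨h1, h2⟩ r hr
    unfold SRows at hr
    rcases List.mem_append.1 hr with hr | hr
    · obtain ⟨j, hj, hr⟩ := List.mem_flatMap.1 hr
      rw [List.mem_range] at hj
      have hn := sgl_le d S hj
      obtain ⟨k1, k2, k3⟩ := h1 j hj
      rcases List.mem_append.1 hr with hr | hr
      · obtain ⟨r', hr', rfl⟩ := List.mem_map.1 hr
        rw [aff_sing d _ j r' z hn]
        exact k1 r' hr'
      · simp only [List.mem_cons, List.not_mem_nil, or_false] at hr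
        rcases hr with rfl | rfl
        · rw [aff_last d _ j 0 1 z hn]; linarith
        · rw [aff_last d _ j 1 (-1) z hn]; linarith
    · obtain ⟨c, hc, hr⟩ := List.mem_flatMap.1 hr
      rw [List.mem_range] at hc
      simp only [List.mem_cons, List.not_mem_nil, or_false] at hr
      rcases hr with rfl | rfl
      · rw [aff_eqRow d y S c hc, h2]; linarith
      · rw [aff_eqRow_neg d y S c hc, h2]; linarith

theorem fn_block (q : Vec) (o m : ℕ) : fn ((q.drop o).take m) = blk (fn q) o m := by
  funext i
  unfold fn blk
  by_cases h : i < m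
  · rw [if_pos h, List.getD_eq_getElem?_getD, List.getElem?_take, if_pos h, List.getElem?_drop]
    change _ = List.getD q (o + i) 0
    rw [List.getD_eq_getElem?_getD]
  · rw [if_neg h, List.getD_eq_getElem?_getD, List.getElem?_take, if_neg h]
    rfl

theorem aff_block (n o m : ℕ) (w : Vec) (z : ℕ → ℚ) (hw : w.length = m) (h : o + m ≤ n) :
    aff n (fn ((0 : ℚ) :: (List.replicate o (0 : ℚ) ++ w))) z = lin m (fn w) (blk z o m) := by
  rw [aff_cons _ _ _ (by rw [List.length_append, List.length_replicate]; omega),
    linL_append, linL_replicate, List.length_replicate]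
  unfold linL lin
  rw [hw, zero_add, zero_add]
  refine Finset.sum_congr rfl fun i hi => ?_
  have hi' := Finset.mem_range.1 hi
  unfold blk
  rw [if_pos hi']

end VKOx

open VKOx

/-- `S_VKO`. -/
theorem vko_thm : S_VKO := by
  intro hull d b rows B y S hy hH q hq
  have hnode : ∀ l < S.2.length, nodeAt S l ∈ S.2 := by
    intro l hl
    unfold nodeAt
    rw [List.getD_eq_getElem _ _ hl]
    exact List.getElem_mem hl
  have hlen : ∀ l < S.2.length,
      ((q.drop (offs d S l)).take ((nodeAt S l).1 + 1)).length = (nodeAt S l).1 + 1 := by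
    intro l hl
    have := offs_le d S hl
    rw [List.length_take, List.length_drop, hq]
    omega
  constructor
  · intro hO
    unfold kO at hO
    simp only at hO
    split at hO
    · exact absurd hO (by simp)
    · rename_i hP
      rw [List.head?_eq_none_iff, List.filterMap_eq_nil_iff] at hO
      have h1 := polyO_none hP
      rw [hq] at h1
      obtain ⟨h2, h3⟩ := (SRows_iff d rows y S hy _).1 h1
      refine ⟨supp_fn hq.le, h2, fun l hl => ?_, h3⟩
      have h4 := hO l (List.mem_range.2 hl)
      rw [Option.map_eq_none_iff] at h4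
      have h5 := ((hH _ (hnode l hl)) _ (hlen l hl)).1 h4
      rw [fn_block] at h5
      exact h5
  · intro s hO
    unfold kO at hO
    simp only at hO
    split at hO
    · rename_i r hP
      obtain ⟨h1, h2⟩ := polyO_some hP
      rw [Option.some.injEq] at hO
      subst hO
      rw [hq] at h2
      refine ⟨fun x hx => ?_, h2⟩
      exact (SRows_iff d rows y S hy x).2 ⟨hx.2.1, hx.2.2.2⟩ r h1
    · have h1 := List.mem_of_head? hO
      rw [List.mem_filterMap] at h1
      obtain ⟨l, hl, h1⟩ := h1
      rw [List.mem_range] at hl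
      rw [Option.map_eq_some_iff] at h1
      obtain ⟨w, hw, rfl⟩ := h1
      obtain ⟨h2, h3, h4⟩ := ((hH _ (hnode l hl)) _ (hlen l hl)).2 w hw
      have hn := offs_le d S hl
      refine ⟨fun x hx => ?_, ?_⟩
      · rw [aff_block _ _ _ w x h2 hn]
        exact h3 _ (hx.2.2.1 l hl)
      · rw [aff_block _ _ _ w _ h2 hn]
        rw [fn_block] at h4
        exact h4

end Pool.HMS
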